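import Pool.Agent.K3h14.CT.Tail
import Pool.Agent.H980R2.Cont.Mom

/-!
Large deviations and uniform local limit theorem for the number of contacts.
-/

set_option autoImplicit false

namespace Pool.Agent.K3h14.CT

open Filter Topology Set MeasureTheory
open Pool.Agent.H988R2.Perc Pool.Agent.H980R2.Cont

theorem log_div : Tendsto (fun n : ℕ => Real.log n / n) atTop (𝓝 0) :=
  (Real.isLittleO_log_id_atTop.tendsto_div_nhds_zero).comp tendsto_natCast_atTop_atTop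

theorem log_succ_div : Tendsto (fun n : ℕ => Real.log ((n:ℝ) + 1) / n) atTop (𝓝 0) := by
  have h1 : Tendsto (fun n : ℕ => Real.log ((n + 1 : ℕ) : ℝ) / ((n + 1 : ℕ) : ℝ)) atTop (𝓝 0) :=
    log_div.comp (tendsto_add_atTop_nat 1)
  have h2 : Tendsto (fun n : ℕ => (((n + 1 : ℕ) : ℝ)) / (n:ℝ)) atTop (𝓝 1) := by
    have : Tendsto (fun n : ℕ => 1 + 1 / (n:ℝ)) atTop (𝓝 (1 + 0)) :=
      tendsto_const_nhds.add tendsto_one_div_atTop_nhds_zero_nat
    rw [add_zero] at this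
    refine this.congr' ?_
    filter_upwards [eventually_gt_atTop 0] with n hn
    have hn0 : (n:ℝ) ≠ 0 := by exact_mod_cast hn.ne'
    push_cast
    field_simp
  have h3 := h1.mul h2
  rw [zero_mul] at h3
  refine h3.congr' ?_
  filter_upwards [eventually_gt_atTop 0] with n hn
  have hn0 : (n:ℝ) ≠ 0 := by exact_mod_cast hn.ne'
  have hn1 : (n:ℝ) + 1 ≠ 0 := by positivity
  push_cast
  field_simp

theorem large_dev {a : ℝ} (h0 : 0 ≤ a) (h1 : a ≤ 1) :
    Tendsto (fun n : ℕ => Real.log (perc.real {ω | a * n ≤ (NN n ω : ℝ)}) / n) atTop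
      (𝓝 (JJ a)) := by
  rcases h0.eq_or_lt with h | hpos
  · subst h
    have e : ∀ n : ℕ, Real.log (perc.real {ω | (0:ℝ) * n ≤ (NN n ω : ℝ)}) / n = 0 := by
      intro n
      have : {ω : Conf | (0:ℝ) * n ≤ (NN n ω : ℝ)} = Set.univ := by
        ext ω
        simp
      rw [this, probReal_univ, Real.log_one, zero_div]
    simp only [e]
    rw [JJ_zero]
    exact tendsto_const_nhds
  set m : ℕ → ℕ := fun n => ⌈a * (n:ℝ)⌉₊ with hm
  have hev : ∀ n : ℕ, {ω : Conf | a * n ≤ (NN n ω : ℝ)} = {ω | m n ≤ NN n ω} := by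
    intro n
    ext ω
    simp only [Set.mem_setOf_eq, hm, Nat.ceil_le]
  have hm1 : ∀ n : ℕ, 1 ≤ n → 1 ≤ m n ∧ m n ≤ n := by
    intro n hn
    have hn0 : (0:ℝ) < n := by exact_mod_cast hn
    constructor
    · exact Nat.one_le_iff_ne_zero.2 (Nat.ceil_pos.2 (mul_pos hpos hn0)).ne'
    · apply Nat.ceil_le.2
      nlinarith
  have hlim : Tendsto (fun n : ℕ => (m n : ℝ) / n) atTop (𝓝 a) :=
    (tendsto_nat_ceil_mul_div_atTop h0).comp tendsto_natCast_atTop_atTop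
  have hinv : ∀ c : ℝ, Tendsto (fun n : ℕ => c / (n:ℝ)) atTop (𝓝 0) := fun c =>
    tendsto_const_nhds.div_atTop tendsto_natCast_atTop_atTop
  have hlo : Tendsto (fun n : ℕ => JJ (min 1 (((m n : ℝ) + 1) / n)) - Real.log n / n -
      4 * (Real.log ((n:ℝ) + 1) / n)) atTop (𝓝 (JJ a - 0 - 4 * 0)) := by
    refine Tendsto.sub (Tendsto.sub ?_ log_div) (log_succ_div.const_mul 4)
    refine (JJ_cont.tendsto a).comp ?_
    have h2 : Tendsto (fun n : ℕ => min (1:ℝ) ((m n : ℝ) / n + 1 / n)) atTop (𝓝 (min 1 (a + 0))) :=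
      tendsto_const_nhds.min (hlim.add (hinv 1))
    rw [add_zero, min_eq_right h1] at h2
    refine h2.congr fun n => ?_
    rw [add_div]
  have hup : Tendsto (fun n : ℕ => JJ (((m n - 2 : ℕ) : ℝ) / n) +
      4 * (Real.log ((n:ℝ) + 1) / n)) atTop (𝓝 (JJ a + 4 * 0)) := by
    refine Tendsto.add ?_ (log_succ_div.const_mul 4)
    refine (JJ_cont.tendsto a).comp ?_
    have h2 : Tendsto (fun n : ℕ => (m n : ℝ) / n - 2 / n) atTop (𝓝 (a - 0)) :=
      hlim.sub (hinv 2)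
    rw [sub_zero] at h2
    refine tendsto_of_tendsto_of_tendsto_of_le_of_le h2 hlim (fun n => ?_) (fun n => ?_)
    · show (m n : ℝ) / n - 2 / n ≤ ((m n - 2 : ℕ) : ℝ) / n
      rw [← sub_div]
      gcongr
      have h3 : m n ≤ (m n - 2) + 2 := by omega
      have h4 : (m n : ℝ) ≤ ((m n - 2 : ℕ) : ℝ) + 2 := by exact_mod_cast h3
      linarith
    · show ((m n - 2 : ℕ) : ℝ) / n ≤ (m n : ℝ) / n
      gcongr
      exact Nat.sub_le _ _
  rw [sub_zero, mul_zero, sub_zero] at hlo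
  rw [mul_zero, add_zero] at hup
  refine tendsto_of_tendsto_of_tendsto_of_le_of_le' hlo hup ?_ ?_
  · filter_upwards [eventually_ge_atTop 1] with n hn
    obtain ⟨k1, k2⟩ := hm1 n hn
    have hn0 : (0:ℝ) < n := by exact_mod_cast hn
    rw [hev]
    have h3 := tail_lower k1 k2
    have h4 := le_S' k1 k2
    have h5 : S n (m n) - 4 * Real.log ((n:ℝ) + 1) ≤ Real.log (perc.real {ω | m n ≤ NN n ω}) := by
      have h6 := Real.log_le_log (by positivity) h3
      rw [Real.log_div (Real.exp_pos _).ne' (by positivity), Real.log_exp, Real.log_pow] at h6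
      exact_mod_cast h6
    rw [le_div_iff₀ hn0]
    have e : (JJ (min 1 (((m n : ℝ) + 1) / n)) - Real.log n / n -
        4 * (Real.log ((n:ℝ) + 1) / n)) * n = n * JJ (min 1 (((m n : ℝ) + 1) / n)) - Real.log n -
        4 * Real.log ((n:ℝ) + 1) := by
      field_simp
    rw [e]
    linarith
  · filter_upwards [eventually_ge_atTop 1] with n hn
    obtain ⟨k1, k2⟩ := hm1 n hn
    have hn0 : (0:ℝ) < n := by exact_mod_cast hn
    rw [hev]
    have h3 := tail_upper k1 k2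
    have h4 := S_le k1 k2
    have hposP : 0 < perc.real {ω | m n ≤ NN n ω} :=
      lt_of_lt_of_le (by positivity) (tail_lower k1 k2)
    have h5 : Real.log (perc.real {ω | m n ≤ NN n ω}) ≤ 4 * Real.log ((n:ℝ) + 1) + S n (m n) := by
      have h6 := Real.log_le_log hposP h3
      rw [Real.log_mul (by positivity) (Real.exp_pos _).ne', Real.log_exp, Real.log_pow] at h6
      exact_mod_cast h6
    rw [div_le_iff₀ hn0]
    have e : (JJ (((m n - 2 : ℕ) : ℝ) / n) + 4 * (Real.log ((n:ℝ) + 1) / n)) * n =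
        n * JJ (((m n - 2 : ℕ) : ℝ) / n) + 4 * Real.log ((n:ℝ) + 1) := by
      field_simp
    rw [e]
    linarith

/-! ### local limit theorem -/

theorem h_lip {u v : ℝ} (h0 : 0 ≤ u) (h : u ≤ v) :
    Real.exp (-u ^ 3) / 3 - Real.exp (-v ^ 3) / 3 ≤ v - u := by
  rcases h.eq_or_lt with rfl | hlt
  · simp
  have hd : ∀ t : ℝ, HasDerivAt (fun t : ℝ => Real.exp (-t ^ 3) / 3) (-(t ^ 2 * Real.exp (-t ^ 3))) t := by
    intro t
    have h1 : HasDerivAt (fun t : ℝ => -t ^ 3) (-(3 * t ^ 2)) t := by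
      have h0 : HasDerivAt (fun t : ℝ => t ^ 3) (3 * t ^ 2) t := by
        simpa using hasDerivAt_pow 3 t
      exact h0.neg
    have h2 := h1.exp.div_const 3
    have e : Real.exp (-t ^ 3) * -(3 * t ^ 2) / 3 = -(t ^ 2 * Real.exp (-t ^ 3)) := by ring
    rwa [e] at h2
  have hc : ContinuousOn (fun t : ℝ => Real.exp (-t ^ 3) / 3) (Icc u v) := by fun_prop
  obtain ⟨c, hc1, hc2⟩ := exists_hasDerivAt_eq_slope _ _ hlt hc (fun t _ => hd t)
  have hc0 : 0 ≤ c := h0.trans hc1.1.le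
  have h3 : c ^ 2 * Real.exp (-c ^ 3) ≤ 1 := by
    have h4 : c ^ 2 ≤ Real.exp (c ^ 3) := by
      have h5 := Real.add_one_le_exp (c ^ 3)
      have h6 : c ^ 2 ≤ c ^ 3 + 1 := by
        rcases le_or_gt c 1 with h7 | h7
        · nlinarith [pow_nonneg hc0 3]
        · nlinarith [mul_nonneg (mul_nonneg hc0 hc0) (sub_nonneg.2 h7.le)]
      linarith
    rw [Real.exp_neg]
    rw [← div_eq_mul_inv, div_le_one (Real.exp_pos _)]
    exact h4
  rw [eq_div_iff (sub_pos.2 hlt).ne'] at hc2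
  have h8 : 0 < v - u := sub_pos.2 hlt
  nlinarith

theorem tl_anti {n k l : ℕ} (h : k ≤ l) : tl n l ≤ tl n k := by
  unfold tl
  exact Finset.sum_le_sum_of_subset_of_nonneg (Finset.Icc_subset_Icc_left h)
    (fun s hs _ => dl_nonneg n s (Finset.mem_Icc.1 hs).2)

/-- uniform convergence of the numerators -/
theorem unif (ε : ℝ) (hε : 0 < ε) : ∀ᶠ n : ℕ in atTop, ∀ k : ℕ,
    |tl n k / (2*(n:ℝ)+1)^2 - Real.exp (-((k:ℝ)^3 / (2*(n:ℝ)+1)^2)) / 3| ≤ ε := by
  obtain ⟨δ, hδ, hδε⟩ : ∃ δ : ℝ, 0 < δ ∧ 2 * δ ≤ ε := ⟨ε / 2, by positivity, by linarith⟩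
  -- the grid
  obtain ⟨M, hM⟩ : ∃ M : ℕ, Real.exp (-((M:ℝ) * δ) ^ 3) / 3 ≤ δ := by
    have h1 : Tendsto (fun M : ℕ => Real.exp (-((M:ℝ) * δ) ^ 3) / 3) atTop (𝓝 (0 / 3)) := by
      refine Tendsto.div_const ?_ 3
      refine (Real.tendsto_exp_neg_atTop_nhds_zero).comp ?_
      exact (tendsto_pow_atTop (by norm_num)).comp
        (tendsto_natCast_atTop_atTop.atTop_mul_const hδ)
    rw [zero_div] at h1
    exact (h1.eventually_le_const hδ).exists
  have hgrid : ∀ᶠ n : ℕ in atTop, ∀ j ∈ Finset.range (M + 1),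
      |tl n ⌊((j:ℝ) * δ) * (2*(n:ℝ)+1)^((2:ℝ)/3)⌋₊ / (2*(n:ℝ)+1)^2 -
        Real.exp (-((j:ℝ) * δ)^3) / 3| ≤ δ := by
    rw [Filter.eventually_all_finset]
    intro j _
    have h1 := tl_tendsto ((j:ℝ) * δ) (by positivity)
    have h2 := (h1.sub_const (Real.exp (-((j:ℝ) * δ)^3) / 3)).abs
    rw [sub_self, abs_zero] at h2
    exact h2.eventually_le_const hδ
  filter_upwards [hgrid] with n hn k
  set r := (2*(n:ℝ)+1)^((2:ℝ)/3) with hr
  have hr1 : 1 ≤ r := T22.r_one n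
  have hr0 : 0 < r := by linarith
  have hr3 : r^3 = (2*(n:ℝ)+1)^2 := T22.r_cube n
  have hA : (0:ℝ) < (2*(n:ℝ)+1)^2 := by positivity
  obtain ⟨x, hx⟩ : ∃ x : ℝ, x = (k:ℝ) / r := ⟨_, rfl⟩
  have hx0 : 0 ≤ x := by rw [hx]; positivity
  have hkx : (k:ℝ) = x * r := by rw [hx]; field_simp
  have e1 : (k:ℝ)^3 / (2*(n:ℝ)+1)^2 = x ^ 3 := by
    rw [hkx, mul_pow, hr3]
    field_simp
  rw [e1]
  have hf0 : 0 ≤ tl n k / (2*(n:ℝ)+1)^2 := div_nonneg (T22.tl_nonneg n k) hA.le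
  have hh0 : 0 < Real.exp (-x ^ 3) / 3 := by positivity
  rcases le_or_gt ((M:ℝ) * δ) x with hxM | hxM
  · have h1 := hn M (Finset.mem_range.2 (Nat.lt_succ_self M))
    have h2 : tl n k / (2*(n:ℝ)+1)^2 ≤ tl n ⌊((M:ℝ) * δ) * r⌋₊ / (2*(n:ℝ)+1)^2 := by
      gcongr
      apply tl_anti
      apply Nat.floor_le_of_le
      rw [hkx]
      gcongr
    have h3 : Real.exp (-x ^ 3) / 3 ≤ Real.exp (-((M:ℝ) * δ) ^ 3) / 3 := by
      have : ((M:ℝ) * δ) ^ 3 ≤ x ^ 3 := pow_le_pow_left₀ (by positivity) hxM 3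
      have := Real.exp_le_exp.2 (neg_le_neg this)
      linarith
    rw [abs_le] at h1 ⊢
    constructor <;> linarith
  · obtain ⟨j, hj⟩ : ∃ j : ℕ, j = ⌊x / δ⌋₊ := ⟨_, rfl⟩
    have hj1 : (j:ℝ) * δ ≤ x := by
      have := Nat.floor_le (show 0 ≤ x / δ by positivity)
      rw [← hj, le_div_iff₀ hδ] at this
      exact this
    have hj2 : x < ((j:ℝ) + 1) * δ := by
      have := Nat.lt_floor_add_one (x / δ)
      rw [← hj, div_lt_iff₀ hδ] at this
      exact this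
    have hjM : j < M := by
      have : (j:ℝ) * δ < M * δ := lt_of_le_of_lt hj1 hxM
      have := lt_of_mul_lt_mul_right this hδ.le
      exact_mod_cast this
    have h1 := hn j (Finset.mem_range.2 (by omega))
    have h2 := hn (j + 1) (Finset.mem_range.2 (by omega))
    push_cast at h2
    have h3 : tl n k / (2*(n:ℝ)+1)^2 ≤ tl n ⌊((j:ℝ) * δ) * r⌋₊ / (2*(n:ℝ)+1)^2 := by
      gcongr
      apply tl_anti
      apply Nat.floor_le_of_le
      rw [hkx]
      gcongr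
    have h4 : tl n ⌊(((j:ℝ) + 1) * δ) * r⌋₊ / (2*(n:ℝ)+1)^2 ≤ tl n k / (2*(n:ℝ)+1)^2 := by
      gcongr
      apply tl_anti
      apply Nat.le_floor
      rw [hkx]
      gcongr
    have h5 := h_lip (u := (j:ℝ) * δ) (v := x) (by positivity) hj1
    have h6 := h_lip (u := x) (v := ((j:ℝ) + 1) * δ) hx0 hj2.le
    have h7 : Real.exp (-x ^ 3) ≤ Real.exp (-((j:ℝ) * δ) ^ 3) := by
      have : ((j:ℝ) * δ) ^ 3 ≤ x ^ 3 := pow_le_pow_left₀ (by positivity) hj1 3
      exact Real.exp_le_exp.2 (neg_le_neg this)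
    have h8 : Real.exp (-(((j:ℝ) + 1) * δ) ^ 3) ≤ Real.exp (-x ^ 3) := by
      have : x ^ 3 ≤ (((j:ℝ) + 1) * δ) ^ 3 := pow_le_pow_left₀ hx0 hj2.le 3
      exact Real.exp_le_exp.2 (neg_le_neg this)
    rw [abs_le] at h1 h2 ⊢
    constructor <;> nlinarith

theorem law_eq {n : ℕ} (hn : 1 ≤ n) (k : ℕ) : perc.real {ω | NN n ω = k} = tl n k / tot n := by
  rcases Nat.lt_or_ge n k with h | h
  · rw [T22.tl_zero n k h, zero_div]
    have : {ω : Conf | NN n ω = k} = ∅ := by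
      ext ω
      simp only [Set.mem_setOf_eq, Set.mem_empty_iff_false, iff_false, NN]
      have := T19_ncard_le n ω
      omega
    rw [this]
    simp
  · exact exact_law n hn k h

theorem local_limit (ε : ℝ) (hε : 0 < ε) : ∃ n₀ : ℕ, ∀ n ≥ n₀, ∀ k : ℕ,
    |(2*(n:ℝ)+1)^((2:ℝ)/3) * perc.real {ω | NN n ω = k} -
      Real.exp (-((k:ℝ)^3 / (2*(n:ℝ)+1)^2)) / Real.Gamma (4/3)| ≤ ε := by
  have hG : 0 < Real.Gamma (4/3) := Real.Gamma_pos_of_pos (by norm_num)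
  set c := Real.Gamma (4/3) / 3 with hc
  have hc0 : 0 < c := by positivity
  have h0 := T22.riem0
  have h1 : Tendsto (fun n : ℕ => (tot n / ((2*(n:ℝ)+1)^((2:ℝ)/3) * (2*(n:ℝ)+1)^2))⁻¹) atTop
      (𝓝 c⁻¹) := h0.inv₀ hc0.ne'
  have h2 := (h1.sub_const c⁻¹).abs
  rw [sub_self, abs_zero] at h2
  have e1 := h2.eventually_le_const (show (0:ℝ) < ε by exact hε)
  have e2 := h1.eventually_le_const (show c⁻¹ < 2 * c⁻¹ by
    have : 0 < c⁻¹ := by positivity
    linarith)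
  have e3 := unif (ε * c / 4) (by positivity)
  rw [← Filter.eventually_atTop]
  filter_upwards [e1, e2, e3, eventually_ge_atTop 1] with n k1 k2 k3 hn k
  have k4 := k3 k
  rw [law_eq hn]
  set r := (2*(n:ℝ)+1)^((2:ℝ)/3) with hr
  have hr0 : 0 < r := lt_of_lt_of_le one_pos (T22.r_one n)
  set A := (2*(n:ℝ)+1)^2 with hAdef
  have hA : 0 < A := by positivity
  have htot : 0 < tot n := lt_of_lt_of_le one_pos (one_le_tot hn)
  set w := (tot n / (r * A))⁻¹ with hw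
  have hw0 : 0 < w := by positivity
  set h := Real.exp (-((k:ℝ)^3 / A)) / 3 with hh
  have hh0 : 0 < h := by positivity
  have hh1 : h ≤ 1 / 3 := by
    rw [hh]
    have : Real.exp (-((k:ℝ)^3 / A)) ≤ 1 := Real.exp_le_one_iff.2 (neg_nonpos.2 (by positivity))
    linarith
  have g1 : r * (tl n k / tot n) = (tl n k / A) * w := by
    rw [hw]
    field_simp
  have g2 : Real.exp (-((k:ℝ)^3 / A)) / Real.Gamma (4/3) = h * c⁻¹ := by
    rw [hh, hc]
    field_simp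
  rw [g1, g2]
  have g3 : (tl n k / A) * w - h * c⁻¹ = (tl n k / A - h) * w + h * (w - c⁻¹) := by ring
  rw [g3]
  refine (abs_add_le _ _).trans ?_
  rw [abs_mul, abs_mul, abs_of_pos hw0, abs_of_pos hh0]
  have g4 : |tl n k / A - h| * w ≤ (ε * c / 4) * (2 * c⁻¹) :=
    mul_le_mul k4 k2 hw0.le (by positivity)
  have g5 : (ε * c / 4) * (2 * c⁻¹) = ε / 2 := by
    field_simp
    norm_num
  have g6 : h * |w - c⁻¹| ≤ 1 / 3 * ε := mul_le_mul hh1 k1 (abs_nonneg _) (by norm_num)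
  linarith

end Pool.Agent.K3h14.CT
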