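import Mathlib

/-!
The rate function of the number of contacts.
-/

set_option autoImplicit false

namespace Pool.Agent.K3h14.CT

open Filter Topology Set

/-- the derivative of the rate function -/
noncomputable def g (t : ℝ) : ℝ := Real.log (4 * (1 - t ^ 2) / (4 - t ^ 2))

/-- minus the rate function -/
noncomputable def JJ (a : ℝ) : ℝ :=
  a * Real.log 4 + (1 + a) * Real.log (1 + a) - (1 - a) * Real.log (1 - a) -
    (2 + a) * Real.log (2 + a) + (2 - a) * Real.log (2 - a)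

theorem JJ_zero : JJ 0 = 0 := by
  unfold JJ
  simp

theorem JJ_one : JJ 1 = Real.log (16 / 27) := by
  unfold JJ
  have h1 : Real.log (16 / 27) = 4 * Real.log 2 - 3 * Real.log 3 := by
    rw [Real.log_div (by norm_num) (by norm_num), show (16:ℝ) = 2 ^ 4 by norm_num,
      show (27:ℝ) = 3 ^ 3 by norm_num, Real.log_pow, Real.log_pow]
    norm_num
  have h2 : Real.log 4 = 2 * Real.log 2 := by
    rw [show (4:ℝ) = 2 ^ 2 by norm_num, Real.log_pow]
    norm_num
  rw [h1, h2]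
  norm_num
  ring

theorem JJ_cont : Continuous JJ := by
  unfold JJ
  have h : ∀ f : ℝ → ℝ, Continuous f → Continuous fun a => f a * Real.log (f a) := by
    intro f hf
    exact Real.continuous_mul_log.comp hf
  have h1 := h (fun a => 1 + a) (by fun_prop)
  have h2 := h (fun a => 1 - a) (by fun_prop)
  have h3 := h (fun a => 2 + a) (by fun_prop)
  have h4 := h (fun a => 2 - a) (by fun_prop)
  exact (((continuous_id.mul continuous_const).add h1).sub h2 |>.sub h3).add h4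

theorem JJ_deriv {t : ℝ} (h0 : 0 ≤ t) (h1 : t < 1) : HasDerivAt JJ (g t) t := by
  have e1 : HasDerivAt (fun a : ℝ => (1 + a) * Real.log (1 + a)) (Real.log (1 + t) + 1) t := by
    have h := (Real.hasDerivAt_mul_log (x := 1 + t) (by linarith)).comp t
      ((hasDerivAt_id t).const_add 1)
    simpa [Function.comp_def] using h
  have e2 : HasDerivAt (fun a : ℝ => (1 - a) * Real.log (1 - a)) (-(Real.log (1 - t) + 1)) t := by
    have h := (Real.hasDerivAt_mul_log (x := 1 - t) (by linarith)).comp t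
      ((hasDerivAt_id t).const_sub 1)
    simpa [Function.comp_def] using h
  have e3 : HasDerivAt (fun a : ℝ => (2 + a) * Real.log (2 + a)) (Real.log (2 + t) + 1) t := by
    have h := (Real.hasDerivAt_mul_log (x := 2 + t) (by linarith)).comp t
      ((hasDerivAt_id t).const_add 2)
    simpa [Function.comp_def] using h
  have e4 : HasDerivAt (fun a : ℝ => (2 - a) * Real.log (2 - a)) (-(Real.log (2 - t) + 1)) t := by
    have h := (Real.hasDerivAt_mul_log (x := 2 - t) (by linarith)).comp t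
      ((hasDerivAt_id t).const_sub 2)
    simpa [Function.comp_def] using h
  have e0 : HasDerivAt (fun a : ℝ => a * Real.log 4) (Real.log 4) t := by
    simpa using (hasDerivAt_id t).mul_const (Real.log 4)
  have h := (((e0.add e1).sub e2).sub e3).add e4
  have hg : g t = Real.log 4 + (Real.log (1 + t) + 1) - -(Real.log (1 - t) + 1) -
      (Real.log (2 + t) + 1) + -(Real.log (2 - t) + 1) := by
    unfold g
    have a1 : (1 - t ^ 2) = (1 - t) * (1 + t) := by ring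
    have a2 : (4 - t ^ 2) = (2 - t) * (2 + t) := by ring
    have b1 : (1 - t) ≠ 0 := by linarith
    have b2 : (1 + t) ≠ 0 := by linarith
    have b3 : (2 - t) ≠ 0 := by linarith
    have b4 : (2 + t) ≠ 0 := by linarith
    rw [a1, a2, Real.log_div (by positivity) (by positivity), Real.log_mul (by norm_num) (by positivity),
      Real.log_mul b1 b2, Real.log_mul b3 b4]
    ring
  rw [hg]
  exact h

theorem G_anti {s t : ℝ} (h0 : 0 ≤ s) (h : s ≤ t) (h1 : t ≤ 1) :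
    4 * (1 - t ^ 2) / (4 - t ^ 2) ≤ 4 * (1 - s ^ 2) / (4 - s ^ 2) := by
  rw [div_le_div_iff₀ (by nlinarith) (by nlinarith)]
  nlinarith [mul_nonneg (sub_nonneg.2 h) (add_nonneg h0 (h0.trans h))]

theorem g_anti {s t : ℝ} (h0 : 0 ≤ s) (h : s ≤ t) (h1 : t < 1) : g t ≤ g s := by
  unfold g
  apply Real.log_le_log
  · apply div_pos <;> nlinarith
  · exact G_anti h0 h h1.le

theorem g_nonpos {t : ℝ} (h0 : 0 ≤ t) (h1 : t < 1) : g t ≤ 0 := by
  have := g_anti le_rfl h0 h1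
  refine this.trans ?_
  unfold g
  norm_num

/-- upper increments -/
theorem JJ_le {x y : ℝ} (h0 : 0 ≤ x) (h : x ≤ y) (h1 : y ≤ 1) (hx : x < 1) :
    JJ y - JJ x ≤ (y - x) * g x := by
  rcases h.eq_or_lt with rfl | hlt
  · simp
  obtain ⟨c, hc, hd⟩ := exists_hasDerivAt_eq_slope JJ g hlt JJ_cont.continuousOn
    (fun t ht => JJ_deriv (h0.trans ht.1.le) (lt_of_lt_of_le ht.2 h1))
  have h2 : g c ≤ g x := g_anti h0 hc.1.le (lt_of_lt_of_le hc.2 h1)
  rw [hd, div_le_iff₀ (sub_pos.2 hlt)] at h2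
  linarith [mul_comm (g x) (y - x)]

/-- lower increments -/
theorem le_JJ {x y : ℝ} (h0 : 0 ≤ x) (h : x ≤ y) (h1 : y < 1) :
    (y - x) * g y ≤ JJ y - JJ x := by
  rcases h.eq_or_lt with rfl | hlt
  · simp
  obtain ⟨c, hc, hd⟩ := exists_hasDerivAt_eq_slope JJ g hlt JJ_cont.continuousOn
    (fun t ht => JJ_deriv (h0.trans ht.1.le) (ht.2.trans h1))
  have h2 : g y ≤ g c := g_anti (h0.trans hc.1.le) hc.2.le h1
  rw [hd, le_div_iff₀ (sub_pos.2 hlt)] at h2
  linarith [mul_comm (g y) (y - x)]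

theorem JJ_anti {x y : ℝ} (h0 : 0 ≤ x) (h : x ≤ y) (h1 : y ≤ 1) : JJ y ≤ JJ x := by
  rcases h.eq_or_lt with rfl | hlt
  · exact le_rfl
  have hx : x < 1 := lt_of_lt_of_le hlt h1
  have h2 := JJ_le h0 h h1 hx
  have h3 := g_nonpos h0 hx
  nlinarith [mul_nonneg (sub_nonneg.2 h) (neg_nonneg.2 h3)]

/-- the factors of the product weights -/
noncomputable def ph (n i : ℕ) : ℝ :=
  (2 * (2*(n:ℝ) + 2*i + 3) * ((n:ℝ) - i)) / ((2*(n:ℝ) - i - 1) * (2*n + i + 4))

theorem ph_pos {n i : ℕ} (hi : 1 ≤ i) (hin : i < n) : 0 < ph n i := by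
  have hi' : (1 : ℝ) ≤ i := by exact_mod_cast hi
  have hin' : (i : ℝ) + 1 ≤ n := by exact_mod_cast hin
  unfold ph
  apply div_pos
  · apply mul_pos (by positivity)
    linarith
  · apply mul_pos
    · linarith
    · positivity

theorem ph_le_one {n i : ℕ} (hi : 1 ≤ i) (hin : i < n) : ph n i ≤ 1 := by
  have hi' : (1 : ℝ) ≤ i := by exact_mod_cast hi
  have hin' : (i : ℝ) + 1 ≤ n := by exact_mod_cast hin
  unfold ph
  rw [div_le_one (mul_pos (by linarith) (by positivity))]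
  nlinarith [mul_nonneg (sub_nonneg.2 hi') (show (0:ℝ) ≤ 3 * i + 4 by positivity)]

theorem ph_upper {n i : ℕ} (hi : 1 ≤ i) (hin : i < n) : Real.log (ph n i) ≤ g (((i:ℝ) - 1) / n) := by
  have hi' : (1 : ℝ) ≤ i := by exact_mod_cast hi
  have hin' : (i : ℝ) + 1 ≤ n := by exact_mod_cast hin
  have hn : (0:ℝ) < n := by linarith
  unfold g
  apply Real.log_le_log (ph_pos hi hin)
  unfold ph
  have e : 4 * (1 - (((i:ℝ) - 1) / n) ^ 2) / (4 - (((i:ℝ) - 1) / n) ^ 2) =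
      4 * ((n:ℝ) ^ 2 - ((i:ℝ) - 1) ^ 2) / (4 * (n:ℝ) ^ 2 - ((i:ℝ) - 1) ^ 2) := by
    have : (4 - (((i:ℝ) - 1) / n) ^ 2) ≠ 0 := by
      have h1 : ((i:ℝ) - 1) / n ≤ 1 := by
        rw [div_le_one hn]; linarith
      have h2 : 0 ≤ ((i:ℝ) - 1) / n := div_nonneg (by linarith) hn.le
      nlinarith
    have h3 : (4 * (n:ℝ) ^ 2 - ((i:ℝ) - 1) ^ 2) ≠ 0 := by nlinarith
    rw [div_eq_div_iff this h3]
    field_simp
  rw [e, div_le_div_iff₀ (mul_pos (by linarith) (by positivity)) (by nlinarith)]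
  obtain ⟨x, hx⟩ : ∃ x : ℝ, x = (i:ℝ) - 1 := ⟨_, rfl⟩
  have hi2 : (i:ℝ) = x + 1 := by linarith
  rw [hi2] at hin' ⊢
  have hx0 : 0 ≤ x := by linarith
  obtain ⟨y, hy⟩ : ∃ y : ℝ, y = (n:ℝ) - x - 2 := ⟨_, rfl⟩
  have hn2 : (n:ℝ) = x + 2 + y := by linarith
  have hy0 : 0 ≤ y := by linarith
  rw [hn2]
  ring_nf
  have : 0 ≤ x * y := mul_nonneg hx0 hy0
  have : 0 ≤ x * x * y := by positivity
  have : 0 ≤ x * y * y := by positivity
  nlinarith [this, mul_nonneg hx0 hx0, mul_nonneg hy0 hy0, mul_nonneg (mul_nonneg hx0 hx0) hx0]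

theorem ph_lower {n i : ℕ} (hi : 1 ≤ i) (hin : i + 1 < n) :
    g (((i:ℝ) + 1) / n) ≤ Real.log (ph n i) := by
  have hi' : (1 : ℝ) ≤ i := by exact_mod_cast hi
  have hin' : (i : ℝ) + 1 + 1 ≤ n := by exact_mod_cast hin
  have hn : (0:ℝ) < n := by linarith
  have h1 : ((i:ℝ) + 1) / n < 1 := by
    rw [div_lt_one hn]; linarith
  have h2 : 0 ≤ ((i:ℝ) + 1) / n := div_nonneg (by linarith) hn.le
  unfold g
  apply Real.log_le_log
  · apply div_pos <;> nlinarith
  unfold ph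
  have e : 4 * (1 - (((i:ℝ) + 1) / n) ^ 2) / (4 - (((i:ℝ) + 1) / n) ^ 2) =
      4 * ((n:ℝ) ^ 2 - ((i:ℝ) + 1) ^ 2) / (4 * (n:ℝ) ^ 2 - ((i:ℝ) + 1) ^ 2) := by
    have : (4 - (((i:ℝ) + 1) / n) ^ 2) ≠ 0 := by nlinarith
    have h3 : (4 * (n:ℝ) ^ 2 - ((i:ℝ) + 1) ^ 2) ≠ 0 := by nlinarith
    rw [div_eq_div_iff this h3]
    field_simp
  rw [e, div_le_div_iff₀ (by nlinarith) (mul_pos (by linarith) (by positivity))]
  obtain ⟨x, hx⟩ : ∃ x : ℝ, x = (i:ℝ) - 1 := ⟨_, rfl⟩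
  have hi2 : (i:ℝ) = x + 1 := by linarith
  rw [hi2] at hin' ⊢
  have hx0 : 0 ≤ x := by linarith
  obtain ⟨y, hy⟩ : ∃ y : ℝ, y = (n:ℝ) - x - 3 := ⟨_, rfl⟩
  have hn2 : (n:ℝ) = x + 3 + y := by linarith
  have hy0 : 0 ≤ y := by linarith
  rw [hn2]
  ring_nf
  have : 0 ≤ x * y := mul_nonneg hx0 hy0
  have h5 : 0 ≤ x * x * y := by positivity
  have h6 : 0 ≤ x * y * y := by positivity
  nlinarith [this, h5, h6, mul_nonneg hx0 hx0, mul_nonneg hy0 hy0, mul_nonneg (mul_nonneg hx0 hx0) hx0]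

end Pool.Agent.K3h14.CT
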