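import Pool.Agent.K3h14.CT.Rate
import Pool.Agent.H980R2.Cont.T19
import Pool.Agent.H980R2.Cont.T22

/-!
Large deviations of the number of contacts.
-/

set_option autoImplicit false

namespace Pool.Agent.K3h14.CT

open Filter Topology Set MeasureTheory
open Pool.Agent.H988R2.Perc Pool.Agent.H980R2.Cont

/-- logarithm of the product -/
noncomputable def S (n s : ℕ) : ℝ := ∑ i ∈ Finset.Icc 1 (s - 1), Real.log (ph n i)

theorem S_one (n : ℕ) : S n 1 = 0 := by simp [S]

theorem S_succ (n s : ℕ) (hs : 1 ≤ s) : S n (s + 1) = S n s + Real.log (ph n s) := by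
  unfold S
  obtain ⟨k, rfl⟩ : ∃ k, s = k + 1 := ⟨s - 1, by omega⟩
  rw [Nat.add_sub_cancel, Nat.add_sub_cancel, Finset.sum_Icc_succ_top (by omega)]

theorem S_le {n s : ℕ} (hs : 1 ≤ s) (hn : s ≤ n) : S n s ≤ n * JJ (((s - 2 : ℕ) : ℝ) / n) := by
  induction s, hs using Nat.le_induction with
  | base =>
    rw [S_one]
    simp [JJ_zero]
  | succ s hs ih =>
    have hn0 : (0:ℝ) < n := by
      have : 0 < n := by omega
      exact_mod_cast this
    rcases hs.eq_or_lt with h1 | h1
    · subst h1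
      rw [S_succ n 1 le_rfl, S_one, zero_add]
      have h2 := ph_upper (n := n) (i := 1) le_rfl (by omega)
      have h3 : g (((1:ℕ):ℝ) - 1) = 0 := by
        unfold g
        norm_num
      have e : (((1:ℕ):ℝ) - 1) / n = 0 := by simp
      rw [e] at h2
      have h4 : g 0 = 0 := by
        unfold g
        norm_num
      rw [h4] at h2
      simpa [JJ_zero] using h2
    · rw [S_succ n s hs]
      have h2 := ph_upper (n := n) (i := s) hs (by omega)
      have hsn : (s:ℝ) + 1 ≤ n := by exact_mod_cast hn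
      have e1 : ((s + 1 - 2 : ℕ) : ℝ) = (s:ℝ) - 1 := by
        rw [show s + 1 - 2 = s - 1 by omega, Nat.cast_sub hs]
        simp
      have e2 : ((s - 2 : ℕ) : ℝ) = (s:ℝ) - 2 := by
        rw [Nat.cast_sub (by omega)]
        simp
      have h3 := ih (by omega)
      rw [e2] at h3
      rw [e1]
      have hs2 : (2:ℝ) ≤ s := by exact_mod_cast h1
      have h4 := le_JJ (x := ((s:ℝ) - 2) / n) (y := ((s:ℝ) - 1) / n)
        (div_nonneg (by linarith) hn0.le) (by gcongr; linarith)
        (by rw [div_lt_one hn0]; linarith)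
      have e3 : ((s:ℝ) - 1) / n - ((s:ℝ) - 2) / n = 1 / n := by ring
      rw [e3, one_div, inv_mul_le_iff₀ hn0] at h4
      nlinarith [h2, h3, h4]

theorem le_S {n s : ℕ} (hs : 1 ≤ s) (hn : s + 1 ≤ n) : n * JJ (((s:ℝ) + 1) / n) ≤ S n s := by
  induction s, hs using Nat.le_induction with
  | base =>
    rw [S_one]
    have hn0 : (0:ℝ) < n := by
      have : 0 < n := by omega
      exact_mod_cast this
    have hn1 : (1:ℝ) + 1 ≤ n := by exact_mod_cast hn
    have h1 := JJ_anti (x := 0) (y := (((1:ℕ):ℝ) + 1) / n) le_rfl (by positivity)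
      (by rw [div_le_one hn0]; push_cast; exact hn1)
    rw [JJ_zero] at h1
    exact mul_nonpos_of_nonneg_of_nonpos hn0.le h1
  | succ s hs ih =>
    have hn0 : (0:ℝ) < n := by
      have : 0 < n := by omega
      exact_mod_cast this
    have hsn : (s:ℝ) + 1 + 1 ≤ n := by exact_mod_cast hn
    rw [S_succ n s hs]
    have h2 := ph_lower (n := n) (i := s) hs (by omega)
    have h3 := ih (by omega)
    have h4 := JJ_le (x := ((s:ℝ) + 1) / n) (y := ((s:ℝ) + 1 + 1) / n) (by positivity)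
      (by gcongr; linarith) (by rw [div_le_one hn0]; exact hsn)
      (by rw [div_lt_one hn0]; linarith)
    have e3 : ((s:ℝ) + 1 + 1) / n - ((s:ℝ) + 1) / n = 1 / n := by ring
    rw [e3, one_div] at h4
    have h5 : (n:ℝ) * (JJ (((s:ℝ) + 1 + 1) / n) - JJ (((s:ℝ) + 1) / n)) ≤ g (((s:ℝ) + 1) / n) := by
      have := mul_le_mul_of_nonneg_left h4 hn0.le
      rwa [← mul_assoc, mul_inv_cancel₀ hn0.ne', one_mul] at this
    push_cast
    linarith

theorem le_S' {n s : ℕ} (hs : 1 ≤ s) (hn : s ≤ n) :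
    n * JJ (min 1 (((s:ℝ) + 1) / n)) - Real.log n ≤ S n s := by
  have hn1 : (1:ℝ) ≤ n := by
    have : 1 ≤ n := by omega
    exact_mod_cast this
  have hlog : 0 ≤ Real.log n := Real.log_nonneg hn1
  have hn0 : (0:ℝ) < n := by linarith
  rcases Nat.lt_or_ge s n with h | h
  · have h1 := le_S hs (show s + 1 ≤ n by omega)
    have h2 : ((s:ℝ) + 1) / n ≤ 1 := by
      rw [div_le_one hn0]
      exact_mod_cast h
    rw [min_eq_right h2]
    linarith
  · have e : s = n := le_antisymm hn h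
    subst e
    have h2 : 1 ≤ ((s:ℝ) + 1) / s := by
      rw [le_div_iff₀ hn0]
      linarith
    rw [min_eq_left h2]
    rcases hs.eq_or_lt with h1 | h1
    · subst h1
      rw [S_one]
      have : JJ 1 ≤ 0 := by
        have := JJ_anti (x := 0) (y := 1) le_rfl zero_le_one le_rfl
        rwa [JJ_zero] at this
      simpa using this
    · obtain ⟨k, rfl⟩ : ∃ k, s = k + 1 := ⟨s - 1, by omega⟩
      have hk : 1 ≤ k := by omega
      rw [S_succ _ k hk]
      have h3 := le_S (n := k + 1) hk le_rfl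
      have e1 : ((k:ℝ) + 1) / ((k + 1 : ℕ) : ℝ) = 1 := by
        push_cast
        exact div_self (by positivity)
      rw [e1] at h3
      have h4 : -Real.log ((k + 1 : ℕ) : ℝ) ≤ Real.log (ph (k + 1) k) := by
        rw [← Real.log_inv]
        apply Real.log_le_log (by positivity)
        unfold ph
        have hk0 : (1:ℝ) ≤ k := by exact_mod_cast hk
        push_cast
        rw [inv_eq_one_div, div_le_div_iff₀ (by positivity) (mul_pos (by linarith) (by positivity))]
        nlinarith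
      linarith

theorem dl_exp {n s : ℕ} (hn : s ≤ n) :
    dl n s = (s:ℝ) * (s + 1) * Real.exp (S n s) := by
  rcases Nat.eq_zero_or_pos s with rfl | hs
  · simp [dl]
  unfold dl
  congr 1
  unfold S
  rw [Real.exp_sum]
  refine Finset.prod_congr rfl fun i hi => ?_
  rw [Finset.mem_Icc] at hi
  rw [Real.exp_log (ph_pos hi.1 (by omega))]
  rfl

theorem S_anti {n s m : ℕ} (hs : 1 ≤ s) (h : s ≤ m) (hn : m ≤ n) : S n m ≤ S n s := by
  induction m, h using Nat.le_induction with
  | base => exact le_rfl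
  | succ m hm ih =>
    rw [S_succ n m (by omega)]
    have h1 : Real.log (ph n m) ≤ 0 :=
      Real.log_nonpos (ph_pos (by omega) (by omega)).le (ph_le_one (by omega) (by omega))
    linarith [ih (by omega)]

theorem S_nonpos {n s : ℕ} (hs : 1 ≤ s) (hn : s ≤ n) : S n s ≤ 0 := by
  have := S_anti le_rfl hs hn
  rwa [S_one] at this

theorem dl_upper {n s m : ℕ} (hm : 1 ≤ m) (h : m ≤ s) (hn : s ≤ n) :
    dl n s ≤ ((n:ℝ) + 1) ^ 2 * Real.exp (S n m) := by
  rw [dl_exp hn]
  have h1 : (s:ℝ) ≤ n := by exact_mod_cast hn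
  have h0 : (0:ℝ) ≤ s := Nat.cast_nonneg s
  apply mul_le_mul
  · nlinarith
  · exact Real.exp_le_exp.2 (S_anti hm h hn)
  · exact (Real.exp_pos _).le
  · positivity

theorem tl_upper {n k m : ℕ} (hm : 1 ≤ m) (h : m ≤ k) :
    tl n k ≤ ((n:ℝ) + 1) ^ 3 * Real.exp (S n m) := by
  unfold tl
  have h1 : ∀ s ∈ Finset.Icc k n, dl n s ≤ ((n:ℝ) + 1) ^ 2 * Real.exp (S n m) := by
    intro s hs
    rw [Finset.mem_Icc] at hs
    exact dl_upper hm (h.trans hs.1) hs.2
  refine (Finset.sum_le_card_nsmul _ _ _ h1).trans ?_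
  rw [Nat.card_Icc, nsmul_eq_mul]
  have h2 : ((n + 1 - k : ℕ) : ℝ) ≤ (n:ℝ) + 1 := by
    have : n + 1 - k ≤ n + 1 := Nat.sub_le _ _
    exact_mod_cast this
  calc ((n + 1 - k : ℕ) : ℝ) * (((n:ℝ) + 1) ^ 2 * Real.exp (S n m))
      ≤ ((n:ℝ) + 1) * (((n:ℝ) + 1) ^ 2 * Real.exp (S n m)) := by gcongr
    _ = _ := by ring

theorem tl_upper0 {n k : ℕ} : tl n k ≤ ((n:ℝ) + 1) ^ 3 := by
  rcases Nat.eq_zero_or_pos k with rfl | hk
  · have h1 : tl n 0 ≤ tl n 1 := by
      unfold tl
      have : Finset.Icc 0 n = insert 0 (Finset.Icc 1 n) := by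
        ext a
        simp only [Finset.mem_Icc, Finset.mem_insert]
        omega
      rw [this, Finset.sum_insert (by simp)]
      simp [dl]
    have h2 := tl_upper (n := n) (k := 1) (m := 1) le_rfl le_rfl
    rw [S_one, Real.exp_zero, mul_one] at h2
    exact h1.trans h2
  · have h2 := tl_upper (n := n) (k := k) (m := 1) le_rfl hk
    rwa [S_one, Real.exp_zero, mul_one] at h2

theorem tot_upper (n : ℕ) : tot n ≤ ((n:ℝ) + 1) ^ 4 := by
  unfold tot
  refine (Finset.sum_le_card_nsmul _ _ (((n:ℝ) + 1) ^ 3) fun k _ => tl_upper0).trans ?_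
  rw [Finset.card_range, nsmul_eq_mul]
  push_cast
  apply le_of_eq
  ring

theorem one_le_tot {n : ℕ} (hn : 1 ≤ n) : 1 ≤ tot n := by
  have h1 : tl n 1 ≤ tot n := by
    unfold tot
    exact Finset.single_le_sum (f := fun k => tl n k) (fun k _ => T22.tl_nonneg n k)
      (Finset.mem_range.2 (by omega))
  have h2 : dl n 1 ≤ tl n 1 := by
    unfold tl
    exact Finset.single_le_sum (f := fun s => dl n s)
      (fun s hs => dl_nonneg n s (Finset.mem_Icc.1 hs).2) (Finset.mem_Icc.2 ⟨le_rfl, hn⟩)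
  have h3 : dl n 1 = 2 := by
    unfold dl
    norm_num
  linarith

/-- the number of contacts -/
noncomputable def NN (n : ℕ) (ω : Conf) : ℕ := (touch (2 * n + 1) ω).ncard

theorem tail_eq {n : ℕ} (hn : 1 ≤ n) (m : ℕ) :
    perc.real {ω | m ≤ NN n ω} = (∑ k ∈ (Finset.range (n + 1)).filter (fun k => m ≤ k), tl n k) / tot n := by
  have hodd : Odd (2*n+1) := ⟨n, rfl⟩
  have h1 : {ω : Conf | m ≤ NN n ω} =
      ⋃ k ∈ (Finset.range (n+1)).filter (fun k : ℕ => m ≤ k),
        {ω : Conf | (touch (2*n+1) ω).ncard = k} := by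
    ext ω
    simp only [Set.mem_setOf_eq, Set.mem_iUnion, Finset.mem_filter, Finset.mem_range, exists_prop, NN]
    constructor
    · intro h
      exact ⟨_, ⟨Nat.lt_succ_of_le (T19_ncard_le n ω), h⟩, rfl⟩
    · rintro ⟨k, ⟨_, h⟩, hk⟩
      omega
  rw [h1, measureReal_biUnion_finset ?_ (fun k _ => measurable_touch (2*n+1) hodd k), Finset.sum_div]
  · refine Finset.sum_congr rfl fun k hk => ?_
    rw [Finset.mem_filter, Finset.mem_range] at hk
    exact exact_law n hn k (by omega)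
  · intro i _ j _ hij
    rw [Function.onFun, Set.disjoint_left]
    intro ω h h'
    simp only [Set.mem_setOf_eq] at h h'
    exact hij (h.symm.trans h')

theorem tail_upper {n m : ℕ} (hm : 1 ≤ m) (hn : m ≤ n) :
    perc.real {ω | m ≤ NN n ω} ≤ ((n:ℝ) + 1) ^ 4 * Real.exp (S n m) := by
  have hn1 : 1 ≤ n := hm.trans hn
  rw [tail_eq hn1]
  have h1 : ∑ k ∈ (Finset.range (n + 1)).filter (fun k => m ≤ k), tl n k ≤
      ((n:ℝ) + 1) ^ 4 * Real.exp (S n m) := by
    refine (Finset.sum_le_card_nsmul _ _ (((n:ℝ) + 1) ^ 3 * Real.exp (S n m)) fun k hk =>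
      tl_upper hm (Finset.mem_filter.1 hk).2).trans ?_
    rw [nsmul_eq_mul]
    have h2 : (((Finset.range (n + 1)).filter (fun k => m ≤ k)).card : ℝ) ≤ (n:ℝ) + 1 := by
      have := Finset.card_filter_le (Finset.range (n + 1)) (fun k => m ≤ k)
      rw [Finset.card_range] at this
      exact_mod_cast this
    calc _ ≤ ((n:ℝ) + 1) * (((n:ℝ) + 1) ^ 3 * Real.exp (S n m)) := by gcongr
      _ = _ := by ring
  have h3 := one_le_tot hn1
  rw [div_le_iff₀ (by linarith)]
  refine h1.trans ?_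
  exact le_mul_of_one_le_right (by positivity) h3

theorem tail_lower {n m : ℕ} (hm : 1 ≤ m) (hn : m ≤ n) :
    Real.exp (S n m) / ((n:ℝ) + 1) ^ 4 ≤ perc.real {ω | m ≤ NN n ω} := by
  have hn1 : 1 ≤ n := hm.trans hn
  rw [tail_eq hn1]
  have h1 : tl n m ≤ ∑ k ∈ (Finset.range (n + 1)).filter (fun k => m ≤ k), tl n k :=
    Finset.single_le_sum (f := fun k => tl n k) (fun k _ => T22.tl_nonneg n k)
      (Finset.mem_filter.2 ⟨Finset.mem_range.2 (by omega), le_rfl⟩)
  have h2 : dl n m ≤ tl n m := by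
    unfold tl
    exact Finset.single_le_sum (f := fun s => dl n s)
      (fun s hs => dl_nonneg n s (Finset.mem_Icc.1 hs).2) (Finset.mem_Icc.2 ⟨le_rfl, hn⟩)
  have h3 : Real.exp (S n m) ≤ dl n m := by
    rw [dl_exp hn]
    have hm1 : (1:ℝ) ≤ m := by exact_mod_cast hm
    apply le_mul_of_one_le_left (Real.exp_pos _).le
    nlinarith
  have h4 := one_le_tot hn1
  exact div_le_div₀ (Finset.sum_nonneg fun k _ => T22.tl_nonneg n k) (by linarith) (by linarith)
    (tot_upper n)

end Pool.Agent.K3h14.CT
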